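import Pool.Agent.H8.AV3.Stmts2

/-!
# Module JER: equivalent forms have the same Jacobian, up to a translation
-/

set_option autoImplicit false

namespace Pool.Agent.H72.AV3B.JER

open Polynomial Matrix Pool.AVR Pool.AV3

variable {R : Type} [CommRing R]

/-- Scaling of a triple. -/
def sc (u : R) (f : R × R × R) : R × R × R := (u ^ 2 * f.1, u ^ 4 * f.2.1, u ^ 6 * f.2.2)

lemma sc_sc (u v : R) (f : R × R × R) : sc u (sc v f) = sc (v * u) f := by
  obtain ⟨a, b, c⟩ := f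
  simp only [sc, Prod.mk.injEq]
  refine ⟨by ring, by ring, by ring⟩

lemma sc_one (f : R × R × R) : sc 1 f = f := by
  obtain ⟨a, b, c⟩ := f
  simp [sc]

lemma sc_neg_one (f : R × R × R) : sc (-1) f = f := by
  obtain ⟨a, b, c⟩ := f
  simp only [sc, Prod.mk.injEq]
  refine ⟨by ring, by ring, by ring⟩

lemma sh_sc (u w η : R) (h : u * w = 1) (f : R × R × R) :
    sh η (sc u f) = sc u (sh (w ^ 2 * η) f) := by
  obtain ⟨a, b, c⟩ := f
  simp only [sc, sh, Prod.mk.injEq]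
  refine ⟨?_, ?_, ?_⟩
  · linear_combination (-3 * η * (u * w + 1)) * h
  · linear_combination (-2 * a * u ^ 2 * η * (u * w + 1) -
      3 * η ^ 2 * (u * w + 1) * (u ^ 2 * w ^ 2 + 1)) * h
  · linear_combination (-b * u ^ 4 * η * (u * w + 1) -
      a * u ^ 2 * η ^ 2 * (u * w + 1) * (u ^ 2 * w ^ 2 + 1) -
      η ^ 3 * (u * w + 1) * (u ^ 4 * w ^ 4 + u ^ 2 * w ^ 2 + 1)) * h

/-- The matrices for which the claim holds. -/
def Ok (τ : R) (g : Matrix (Fin 3) (Fin 3) R) : Prop :=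
  IsUnit g.det ∧ ∀ c, ∃ η, Jc τ (tsub c g) = sc g.det (sh η (Jc τ c))

lemma Ok.mul {τ : R} {g h : Matrix (Fin 3) (Fin 3) R} (hg : Ok τ g) (hh : Ok τ h) :
    Ok τ (g * h) := by
  refine ⟨by rw [det_mul]; exact hg.1.mul hh.1, fun c => ?_⟩
  obtain ⟨η, h1⟩ := hg.2 c
  obtain ⟨ε, h2⟩ := hh.2 (tsub c g)
  obtain ⟨w, hw⟩ := hg.1.exists_right_inv
  refine ⟨w ^ 2 * ε + η, ?_⟩
  rw [← Pool.AV3.tsub_mul, h2, h1, sh_sc _ w _ hw, sc_sc, sh_sh, det_mul]

lemma ok_el01 {τ : R} (hτ : 2 * τ = 1) (l : R) : Ok τ (el01 l) := by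
  have hd : (el01 l).det = 1 := by
    rw [el01, Matrix.det_fin_three]
    simp
  refine ⟨by rw [hd]; exact isUnit_one, fun c =>
    ⟨-(l * (c 1 * c 5 + c 0 * c 8)) - 2 * l ^ 2 * c 0 * c 5, ?_⟩⟩
  rw [hd, sc_one]
  exact Jc_el01 τ l c hτ

lemma ok_sw01 (τ : R) : Ok τ (sw01 R) := by
  have hd : (sw01 R).det = -1 := by
    rw [sw01, Matrix.det_fin_three]
    simp
  refine ⟨by rw [hd]; exact isUnit_one.neg, fun c => ⟨0, ?_⟩⟩
  rw [hd, sh_zero, Jc_sw01, sc_neg_one]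

lemma ok_sw12 (τ : R) : Ok τ (sw12 R) := by
  have hd : (sw12 R).det = -1 := by
    rw [sw12, Matrix.det_fin_three]
    simp
  refine ⟨by rw [hd]; exact isUnit_one.neg, fun c => ⟨0, ?_⟩⟩
  rw [hd, sh_zero, Jc_sw12, sc_neg_one]

lemma ok_dg0 (τ : R) {u : R} (hu : IsUnit u) : Ok τ (dg0 u) := by
  have hd : (dg0 u).det = u := by
    rw [dg0, Matrix.det_fin_three]
    simp
  refine ⟨by rw [hd]; exact hu, fun c => ⟨0, ?_⟩⟩
  rw [hd, sh_zero, Jc_dg0]
  rfl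

lemma ok_e10 {τ : R} (hτ : 2 * τ = 1) (l : R) : Ok τ !![1, 0, 0; l, 1, 0; 0, 0, 1] := by
  have h := ((ok_sw01 τ).mul (ok_el01 hτ l)).mul (ok_sw01 τ)
  have e : sw01 R * el01 l * sw01 R = !![1, 0, 0; l, 1, 0; 0, 0, 1] := by
    ext i j
    fin_cases i <;> fin_cases j <;>
      simp [sw01, el01, Matrix.mul_apply, Fin.sum_univ_three]
  rwa [e] at h

lemma ok_e02 {τ : R} (hτ : 2 * τ = 1) (l : R) : Ok τ !![1, 0, l; 0, 1, 0; 0, 0, 1] := by
  have h := ((ok_sw12 τ).mul (ok_el01 hτ l)).mul (ok_sw12 τ)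
  have e : sw12 R * el01 l * sw12 R = !![1, 0, l; 0, 1, 0; 0, 0, 1] := by
    ext i j
    fin_cases i <;> fin_cases j <;>
      simp [sw12, el01, Matrix.mul_apply, Fin.sum_univ_three]
  rwa [e] at h

lemma ok_e20 {τ : R} (hτ : 2 * τ = 1) (l : R) : Ok τ !![1, 0, 0; 0, 1, 0; l, 0, 1] := by
  have h := ((ok_sw12 τ).mul (ok_e10 hτ l)).mul (ok_sw12 τ)
  have e : sw12 R * !![1, 0, 0; l, 1, 0; 0, 0, 1] * sw12 R =
      !![1, 0, 0; 0, 1, 0; l, 0, 1] := by
    ext i j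
    fin_cases i <;> fin_cases j <;>
      simp [sw12, Matrix.mul_apply, Fin.sum_univ_three]
  rwa [e] at h

lemma ok_e12 {τ : R} (hτ : 2 * τ = 1) (l : R) : Ok τ !![1, 0, 0; 0, 1, l; 0, 0, 1] := by
  have h := ((ok_sw01 τ).mul (ok_e02 hτ l)).mul (ok_sw01 τ)
  have e : sw01 R * !![1, 0, l; 0, 1, 0; 0, 0, 1] * sw01 R =
      !![1, 0, 0; 0, 1, l; 0, 0, 1] := by
    ext i j
    fin_cases i <;> fin_cases j <;>
      simp [sw01, Matrix.mul_apply, Fin.sum_univ_three]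
  rwa [e] at h

lemma ok_e21 {τ : R} (hτ : 2 * τ = 1) (l : R) : Ok τ !![1, 0, 0; 0, 1, 0; 0, l, 1] := by
  have h := ((ok_sw01 τ).mul (ok_e20 hτ l)).mul (ok_sw01 τ)
  have e : sw01 R * !![1, 0, 0; 0, 1, 0; l, 0, 1] * sw01 R =
      !![1, 0, 0; 0, 1, 0; 0, l, 1] := by
    ext i j
    fin_cases i <;> fin_cases j <;>
      simp [sw01, Matrix.mul_apply, Fin.sum_univ_three]
  rwa [e] at h

lemma ok_diag (τ : R) {u p s : R} (hu : IsUnit u) (hp : IsUnit p) (hs : IsUnit s) :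
    Ok τ !![u, 0, 0; 0, p, 0; 0, 0, s] := by
  have h1 := ((ok_sw01 τ).mul (ok_dg0 τ hp)).mul (ok_sw01 τ)
  have h2 := ((ok_sw12 τ).mul (((ok_sw01 τ).mul (ok_dg0 τ hs)).mul (ok_sw01 τ))).mul (ok_sw12 τ)
  have h := ((ok_dg0 τ hu).mul h1).mul h2
  have e : dg0 u * (sw01 R * dg0 p * sw01 R) * (sw12 R * (sw01 R * dg0 s * sw01 R) * sw12 R) =
      !![u, 0, 0; 0, p, 0; 0, 0, s] := by
    ext i j
    fin_cases i <;> fin_cases j <;>
      simp [sw01, sw12, dg0, Matrix.mul_apply, Fin.sum_univ_three]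
  rwa [e] at h

lemma ok_upper {τ : R} (hτ : 2 * τ = 1) {u p s : R} (a b q : R) (hu : IsUnit u) (hp : IsUnit p)
    (hs : IsUnit s) : Ok τ !![u, a, b; 0, p, q; 0, 0, s] := by
  obtain ⟨u', hu'⟩ := hu.exists_right_inv
  obtain ⟨p', hp'⟩ := hp.exists_right_inv
  have h := (ok_diag τ hu hp hs).mul
    (((ok_e12 hτ (p' * q)).mul (ok_e02 hτ (u' * b))).mul (ok_el01 hτ (u' * a)))
  have e : !![u, 0, 0; 0, p, 0; 0, 0, s] * (!![1, 0, 0; 0, 1, p' * q; 0, 0, 1] *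
      !![1, 0, u' * b; 0, 1, 0; 0, 0, 1] * el01 (u' * a)) =
      !![u, a, b; 0, p, q; 0, 0, s] := by
    ext i j
    fin_cases i <;> fin_cases j <;>
      simp [el01, Matrix.mul_apply, Fin.sum_univ_three, ← mul_assoc, hu', hp']
  rwa [e] at h

lemma ok_block1 {τ : R} (hτ : 2 * τ = 1) {u p : R} (a b q r s : R) (hp : IsUnit p)
    (hd : IsUnit (u * (p * s - q * r))) : Ok τ !![u, a, b; 0, p, q; 0, r, s] := by
  obtain ⟨p', hp'⟩ := hp.exists_right_inv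
  have hu : IsUnit u := isUnit_of_mul_isUnit_left hd
  have h1 : IsUnit (p * s - q * r) := isUnit_of_mul_isUnit_right hd
  have h2 : IsUnit (s - r * p' * q) := by
    refine isUnit_of_mul_isUnit_right (x := p) ?_
    have : p * (s - r * p' * q) = p * s - q * r := by linear_combination (-r * q) * hp'
    rw [this]
    exact h1
  have h := (ok_e21 hτ (r * p')).mul (ok_upper hτ a b q hu hp h2)
  have e : !![1, 0, 0; 0, 1, 0; 0, r * p', 1] * !![u, a, b; 0, p, q; 0, 0, s - r * p' * q] =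
      !![u, a, b; 0, p, q; 0, r, s] := by
    have hr : r * p' * p = r := by linear_combination r * hp'
    ext i j
    fin_cases i <;> fin_cases j <;>
      simp [Matrix.mul_apply, Fin.sum_univ_three, hr]
  rwa [e] at h

lemma ok_block [IsLocalRing R] {τ : R} (hτ : 2 * τ = 1) (u a b p q r s : R)
    (hd : IsUnit (u * (p * s - q * r))) : Ok τ !![u, a, b; 0, p, q; 0, r, s] := by
  have h1 : IsUnit (p * s + -(q * r)) := by
    rw [← sub_eq_add_neg]
    exact isUnit_of_mul_isUnit_right hd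
  rcases IsLocalRing.isUnit_or_isUnit_of_isUnit_add h1 with h2 | h2
  · exact ok_block1 hτ a b q r s (isUnit_of_mul_isUnit_left h2) hd
  · have h3 : IsUnit r := isUnit_of_mul_isUnit_right (IsUnit.neg_iff _ |>.mp h2)
    have hd' : IsUnit (u * (r * q - s * p)) := by
      have : u * (r * q - s * p) = -(u * (p * s - q * r)) := by ring
      rw [this]
      exact hd.neg
    have h := (ok_sw12 τ).mul (ok_block1 hτ (u := u) a b s p q h3 hd')
    have e : sw12 R * !![u, a, b; 0, r, s; 0, p, q] = !![u, a, b; 0, p, q; 0, r, s] := by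
      ext i j
      fin_cases i <;> fin_cases j <;>
        simp [sw12, Matrix.mul_apply, Fin.sum_univ_three]
    rwa [e] at h

lemma ok_pivot [IsLocalRing R] {τ : R} (hτ : 2 * τ = 1) (g : Matrix (Fin 3) (Fin 3) R)
    (h0 : IsUnit (g 0 0)) (hd : IsUnit g.det) : Ok τ g := by
  obtain ⟨w, hw⟩ := h0.exists_right_inv
  have hd' : IsUnit (g 0 0 * ((g 1 1 - g 1 0 * w * g 0 1) * (g 2 2 - g 2 0 * w * g 0 2) -
      (g 1 2 - g 1 0 * w * g 0 2) * (g 2 1 - g 2 0 * w * g 0 1))) := by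
    have : g 0 0 * ((g 1 1 - g 1 0 * w * g 0 1) * (g 2 2 - g 2 0 * w * g 0 2) -
      (g 1 2 - g 1 0 * w * g 0 2) * (g 2 1 - g 2 0 * w * g 0 1)) = g.det := by
      rw [Matrix.det_fin_three]
      linear_combination (g 1 2 * g 2 0 * g 0 1 + g 1 0 * g 0 2 * g 2 1 -
        g 1 1 * g 2 0 * g 0 2 - g 1 0 * g 0 1 * g 2 2) * hw
    rw [this]
    exact hd
  have h := ((ok_e10 hτ (g 1 0 * w)).mul (ok_e20 hτ (g 2 0 * w))).mul
    (ok_block hτ (g 0 0) (g 0 1) (g 0 2) _ _ _ _ hd')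
  have e1 : g 1 0 * w * g 0 0 = g 1 0 := by linear_combination g 1 0 * hw
  have e2 : g 2 0 * w * g 0 0 = g 2 0 := by linear_combination g 2 0 * hw
  have e : !![1, 0, 0; g 1 0 * w, 1, 0; 0, 0, 1] * !![1, 0, 0; 0, 1, 0; g 2 0 * w, 0, 1] *
      !![g 0 0, g 0 1, g 0 2; 0, g 1 1 - g 1 0 * w * g 0 1, g 1 2 - g 1 0 * w * g 0 2;
        0, g 2 1 - g 2 0 * w * g 0 1, g 2 2 - g 2 0 * w * g 0 2] = g := by
    ext i j
    fin_cases i <;> fin_cases j <;>
      simp [Matrix.mul_apply, Fin.sum_univ_three, e1, e2]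
  rwa [e] at h

lemma det_sw01_mul (g : Matrix (Fin 3) (Fin 3) R) : (sw01 R * g).det = -g.det := by
  have hd : (sw01 R).det = -1 := by
    rw [sw01, Matrix.det_fin_three]
    simp
  rw [det_mul, hd]
  ring

lemma det_sw12_mul (g : Matrix (Fin 3) (Fin 3) R) : (sw12 R * g).det = -g.det := by
  have hd : (sw12 R).det = -1 := by
    rw [sw12, Matrix.det_fin_three]
    simp
  rw [det_mul, hd]
  ring

lemma sw01_sw01 : sw01 R * sw01 R = 1 := by
  ext i j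
  fin_cases i <;> fin_cases j <;> simp [sw01, Matrix.mul_apply, Fin.sum_univ_three]

lemma sw12_sw12 : sw12 R * sw12 R = 1 := by
  ext i j
  fin_cases i <;> fin_cases j <;> simp [sw12, Matrix.mul_apply, Fin.sum_univ_three]

lemma ok_one0 [IsLocalRing R] {τ : R} (hτ : 2 * τ = 1) (g : Matrix (Fin 3) (Fin 3) R)
    (h0 : IsUnit (g 1 0)) (hd : IsUnit g.det) : Ok τ g := by
  have h1 : Ok τ (sw01 R * g) := by
    refine ok_pivot hτ _ ?_ (by rw [det_sw01_mul]; exact hd.neg)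
    have : (sw01 R * g) 0 0 = g 1 0 := by
      simp [sw01, Matrix.mul_apply, Fin.sum_univ_three]
    rw [this]
    exact h0
  have h2 := (ok_sw01 τ).mul h1
  rwa [← mul_assoc, sw01_sw01, one_mul] at h2

lemma ok_two0 [IsLocalRing R] {τ : R} (hτ : 2 * τ = 1) (g : Matrix (Fin 3) (Fin 3) R)
    (h0 : IsUnit (g 2 0)) (hd : IsUnit g.det) : Ok τ g := by
  have h1 : Ok τ (sw12 R * g) := by
    refine ok_one0 hτ _ ?_ (by rw [det_sw12_mul]; exact hd.neg)
    have : (sw12 R * g) 1 0 = g 2 0 := by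
      simp [sw12, Matrix.mul_apply, Fin.sum_univ_three]
    rw [this]
    exact h0
  have h2 := (ok_sw12 τ).mul h1
  rwa [← mul_assoc, sw12_sw12, one_mul] at h2

lemma ok_all [IsLocalRing R] {τ : R} (hτ : 2 * τ = 1) (g : Matrix (Fin 3) (Fin 3) R)
    (hd : IsUnit g.det) : Ok τ g := by
  have h1 : g.det = g 0 0 * (g 1 1 * g 2 2 - g 1 2 * g 2 1) +
      (g 1 0 * (g 0 2 * g 2 1 - g 0 1 * g 2 2) + g 2 0 * (g 0 1 * g 1 2 - g 0 2 * g 1 1)) := by
    rw [Matrix.det_fin_three]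
    ring
  have h2 := hd
  rw [h1] at h2
  rcases IsLocalRing.isUnit_or_isUnit_of_isUnit_add h2 with h3 | h3
  · exact ok_pivot hτ g (isUnit_of_mul_isUnit_left h3) hd
  · rcases IsLocalRing.isUnit_or_isUnit_of_isUnit_add h3 with h4 | h4
    · exact ok_one0 hτ g (isUnit_of_mul_isUnit_left h4) hd
    · exact ok_two0 hτ g (isUnit_of_mul_isUnit_left h4) hd

lemma sc_inj {u : R} (hu : IsUnit u) {f f' : R × R × R} (h : sc u f = sc u f') : f = f' := by
  obtain ⟨w, hw⟩ := hu.exists_right_inv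
  have h1 := congrArg (sc w) h
  rwa [sc_sc, sc_sc, hw, sc_one, sc_one] at h1

end Pool.Agent.H72.AV3B.JER

namespace Pool.Agent.H72.AV3B

open Polynomial Matrix Pool.AVR Pool.AV3 JER

theorem jer_thm : Pool.AV3.JERStmt := by
  intro R _ _ τ hτ g c c' h
  obtain ⟨η, h1⟩ := (ok_all hτ g h.1).2 c
  refine ⟨η, sc_inj h.1 ?_⟩
  rw [← h1, h.2, Jc_smul]
  rfl

end Pool.Agent.H72.AV3B
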