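import Pool.Agent.H8.AV3.Stmts3

/-!
# Modules GAF, GPR: automorphisms at the places
-/

set_option autoImplicit false

namespace Pool.Agent.H72.AV3B.GAF

open Polynomial Matrix Pool.AVR Pool.AV3

variable {F : Type} [Field F]

lemma alg_mem_IP {P : F[X]} (hP : Irreducible P) (p : F[X]) :
    algebraMap F[X] (RatFunc F) p ∈ AVS.IP P := by
  show ¬ P ∣ (algebraMap F[X] (RatFunc F) p).denom
  rw [RatFunc.denom_algebraMap]
  exact fun h => hP.not_isUnit (isUnit_of_dvd_one h)

lemma map_det' (γ : Matrix (Fin 3) (Fin 3) F[X]) :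
    (γ.map (algebraMap F[X] (RatFunc F))).det = algebraMap F[X] (RatFunc F) γ.det := by
  rw [RingHom.map_det]
  rfl

lemma intDegree_X_pow (n : ℕ) : ((RatFunc.X : RatFunc F) ^ n).intDegree = n := by
  induction n with
  | zero => simp
  | succ n ih =>
    rw [pow_succ, RatFunc.intDegree_mul (pow_ne_zero _ RatFunc.X_ne_zero) RatFunc.X_ne_zero, ih,
      RatFunc.intDegree_X]
    push_cast
    rfl

lemma intDegree_X_zpow (n : ℤ) : ((RatFunc.X : RatFunc F) ^ n).intDegree = n := by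
  rcases Int.eq_nat_or_neg n with ⟨m, rfl | rfl⟩
  · rw [zpow_natCast, intDegree_X_pow]
  · rw [_root_.zpow_neg, zpow_natCast, RatFunc.intDegree_inv, intDegree_X_pow]

lemma Dg_mul (d : Fin 3 → ℤ) : (Dg d : Matrix (Fin 3) (Fin 3) (RatFunc F)) *
    Dg (fun i => -d i) = 1 := by
  unfold Dg
  rw [Matrix.diagonal_mul_diagonal, ← Matrix.diagonal_one]
  congr 1
  funext i
  rw [← zpow_add₀ RatFunc.X_ne_zero, add_neg_cancel, zpow_zero]

lemma Dg_inv (d : Fin 3 → ℤ) : (Dg d : Matrix (Fin 3) (Fin 3) (RatFunc F))⁻¹ =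
    Dg (fun i => -d i) := Matrix.inv_eq_right_inv (Dg_mul d)

lemma mem_Iinf {x : RatFunc F} : x ∈ AVS.Iinf F ↔ x.intDegree ≤ 0 := Iff.rfl

/-- A unit polynomial. -/
lemma unit_inv {u : F[X]} (hu : IsUnit u) : ∃ w : F[X], u * w = 1 ∧
    (algebraMap F[X] (RatFunc F) u)⁻¹ = algebraMap F[X] (RatFunc F) w := by
  obtain ⟨w, hw⟩ := hu.exists_right_inv
  refine ⟨w, hw, ?_⟩
  have h1 : algebraMap F[X] (RatFunc F) u * algebraMap F[X] (RatFunc F) w = 1 := by
    rw [← map_mul, hw, map_one]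
  exact inv_eq_of_mul_eq_one_right h1

/-- The entries of a matrix which is proportional to another one. -/
lemma gpr_half {γ γ' : Matrix (Fin 3) (Fin 3) F[X]} (h : IsUnit γ.det) {r : RatFunc F}
    (e : γ'.map (algebraMap F[X] (RatFunc F)) = r • γ.map (algebraMap F[X] (RatFunc F))) :
    ∃ p : F[X], r = algebraMap F[X] (RatFunc F) p := by
  obtain ⟨w, hw, -⟩ := unit_inv h
  refine ⟨w * (γ' * γ.adjugate) 0 0, ?_⟩
  have h1 : (γ' * γ.adjugate).map (algebraMap F[X] (RatFunc F)) =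
      r • (γ * γ.adjugate).map (algebraMap F[X] (RatFunc F)) := by
    rw [Matrix.map_mul, e, Matrix.map_mul, Matrix.smul_mul]
  rw [Matrix.mul_adjugate] at h1
  have h2 := congrFun (congrFun h1 0) 0
  simp only [Matrix.map_apply, Matrix.smul_apply, Matrix.one_apply_eq, smul_eq_mul, mul_one] at h2
  rw [map_mul, h2]
  have h3 : algebraMap F[X] (RatFunc F) w * algebraMap F[X] (RatFunc F) γ.det = 1 := by
    rw [← map_mul, mul_comm w, hw, map_one]
  linear_combination (-r) * h3

end Pool.Agent.H72.AV3B.GAF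

namespace Pool.Agent.H72.AV3B

open Polynomial Matrix Pool.AVR Pool.AV3 GAF

theorem gaf_thm : Pool.AV3.GAFStmt := by
  intro F _ γ
  refine ⟨?_, ?_⟩
  · intro P hP hu
    refine ⟨fun i j => alg_mem_IP hP _, ?_⟩
    rw [map_det']
    obtain ⟨w, hw, hw2⟩ := unit_inv hu
    refine ⟨?_, alg_mem_IP hP _, ?_⟩
    · rw [Ne, map_eq_zero_iff _ (RatFunc.algebraMap_injective F)]
      exact hu.ne_zero
    · rw [hw2]
      exact alg_mem_IP hP _
  · rintro d ⟨hu, hd⟩
    refine ⟨?_, ?_⟩
    · intro i j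
      rw [Dg_inv, Matrix.mul_assoc]
      unfold Dg
      rw [Matrix.diagonal_mul, Matrix.mul_diagonal, Matrix.map_apply, mem_Iinf]
      by_cases h0 : γ i j = 0
      · rw [h0]
        simp
      · have h1 : algebraMap F[X] (RatFunc F) (γ i j) ≠ 0 := by
          rw [Ne, map_eq_zero_iff _ (RatFunc.algebraMap_injective F)]
          exact h0
        rw [RatFunc.intDegree_mul (zpow_ne_zero _ RatFunc.X_ne_zero)
          (mul_ne_zero h1 (zpow_ne_zero _ RatFunc.X_ne_zero)),
          RatFunc.intDegree_mul h1 (zpow_ne_zero _ RatFunc.X_ne_zero),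
          RatFunc.intDegree_polynomial, intDegree_X_zpow, intDegree_X_zpow]
        have := hd i j h0
        linarith
    · have h1 : (Dg d * γ.map (algebraMap F[X] (RatFunc F)) * (Dg d)⁻¹).det =
          algebraMap F[X] (RatFunc F) γ.det := by
        have h2 : (Dg d : Matrix (Fin 3) (Fin 3) (RatFunc F)).det *
            ((Dg d)⁻¹ : Matrix (Fin 3) (Fin 3) (RatFunc F)).det = 1 := by
          rw [← det_mul, Dg_inv, Dg_mul, det_one]
        rw [det_mul, det_mul, map_det']
        linear_combination algebraMap F[X] (RatFunc F) γ.det * h2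
      rw [h1]
      obtain ⟨w, hw, hw2⟩ := unit_inv hu
      refine ⟨?_, ?_, ?_⟩
      · rw [Ne, map_eq_zero_iff _ (RatFunc.algebraMap_injective F)]
        exact hu.ne_zero
      · rw [mem_Iinf, RatFunc.intDegree_polynomial, Polynomial.natDegree_eq_zero_of_isUnit hu]
        simp
      · rw [hw2, mem_Iinf, RatFunc.intDegree_polynomial,
          Polynomial.natDegree_eq_zero_of_isUnit (IsUnit.of_mul_eq_one_right _ hw)]
        simp

theorem gpr_thm : Pool.AV3.GPRStmt := by
  intro F _ γ γ' h h' r e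
  have hr : r ≠ 0 := by
    rintro rfl
    rw [zero_smul] at e
    have h1 := map_det' γ'
    rw [e, Matrix.det_zero] at h1
    have h2 := (map_eq_zero_iff _ (RatFunc.algebraMap_injective F)).mp h1.symm
    exact h'.ne_zero h2
  obtain ⟨p, hp⟩ := gpr_half h e
  obtain ⟨q, hq⟩ := gpr_half (γ := γ') (γ' := γ) h' (r := r⁻¹) (by
    rw [e, smul_smul, inv_mul_cancel₀ hr, one_smul])
  have hpq : p * q = 1 := by
    apply RatFunc.algebraMap_injective F
    rw [map_mul, ← hp, ← hq, mul_inv_cancel₀ hr, map_one]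
  obtain ⟨r₀, hr₀, hr₁⟩ := Polynomial.isUnit_iff.mp (IsUnit.of_mul_eq_one _ hpq)
  refine ⟨r₀, hr₀.ne_zero, by rw [hp, hr₁], ?_⟩
  ext1 i j
  apply RatFunc.algebraMap_injective F
  have h2 := congrFun (congrFun e i) j
  simp only [Matrix.map_apply, Matrix.smul_apply, smul_eq_mul] at h2
  rw [Matrix.smul_apply, smul_eq_mul, map_mul, h2, hr₁, hp]

end Pool.Agent.H72.AV3B
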