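import Pool.Agent.H8.AV3.Stmts2

/-!
# Module GIR: matrices invertible over a valuation ring
-/

set_option autoImplicit false

namespace Pool.Agent.H72.AV3B.GIR

open Polynomial Matrix Pool.AVR Pool.AV3

section

variable {K : Type} [Field K] (V : ValuationSubring K)

lemma two_mem : (2 : K) ∈ V := by
  have h : (1 : K) + 1 ∈ V := add_mem (one_mem V) (one_mem V)
  rwa [one_add_one_eq_two] at h

lemma three_mem : (3 : K) ∈ V := by
  have h : (2 : K) + 1 ∈ V := add_mem (two_mem V) (one_mem V)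
  have : (3 : K) = 2 + 1 := by norm_num
  rwa [this]

variable {V}

lemma coe_tev (c : Fin 10 → V) (v : Fin 3 → V) :
    ((tev c v : V) : K) = tev (fun i => (c i : K)) (fun i => (v i : K)) :=
  map_tev V.subtype c v

lemma coe_tder (c : Fin 10 → V) (v w : Fin 3 → V) :
    ((tder c v w : V) : K) =
      tder (fun i => (c i : K)) (fun i => (v i : K)) (fun i => (w i : K)) :=
  map_tder V.subtype c v w

lemma tev_mem {c : Fin 10 → K} {v : Fin 3 → K} (hc : ∀ i, c i ∈ V) (hv : ∀ i, v i ∈ V) :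
    tev c v ∈ V := by
  have e := coe_tev (V := V) (fun i => ⟨c i, hc i⟩) (fun i => ⟨v i, hv i⟩)
  rw [← e]
  exact Subtype.mem _

lemma tder_mem {c : Fin 10 → K} {v w : Fin 3 → K} (hc : ∀ i, c i ∈ V) (hv : ∀ i, v i ∈ V)
    (hw : ∀ i, w i ∈ V) : tder c v w ∈ V := by
  have e := coe_tder (V := V) (fun i => ⟨c i, hc i⟩) (fun i => ⟨v i, hv i⟩)
    (fun i => ⟨w i, hw i⟩)
  rw [← e]
  exact Subtype.mem _

lemma tsub_mem {c : Fin 10 → K} {g : Matrix (Fin 3) (Fin 3) K} (hc : ∀ i, c i ∈ V)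
    (hg : ∀ i j, g i j ∈ V) (i : Fin 10) : tsub c g i ∈ V := by
  have e := congrFun (map_tsub V.subtype (fun i => (⟨c i, hc i⟩ : V))
    (Matrix.of fun i j => (⟨g i j, hg i j⟩ : V))) i
  have e2 : (Matrix.of fun i j => (⟨g i j, hg i j⟩ : V)).map V.subtype = g := by
    ext i j
    rfl
  rw [e2] at e
  have e3 : (fun i => V.subtype ((fun i => (⟨c i, hc i⟩ : V)) i)) = c := by
    funext i
    rfl
  rw [e3] at e
  rw [← e]
  exact Subtype.mem _

lemma det_mem {g : Matrix (Fin 3) (Fin 3) K} (hg : ∀ i j, g i j ∈ V) : g.det ∈ V := by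
  rw [Matrix.det_fin_three]
  refine sub_mem (add_mem (add_mem (sub_mem (sub_mem ?_ ?_) ?_) ?_) ?_) ?_ <;>
    exact mul_mem (mul_mem (hg _ _) (hg _ _)) (hg _ _)

lemma mul_mat_mem {g h : Matrix (Fin 3) (Fin 3) K} (hg : ∀ i j, g i j ∈ V)
    (hh : ∀ i j, h i j ∈ V) (i j : Fin 3) : (g * h) i j ∈ V := by
  rw [Matrix.mul_apply]
  exact sum_mem fun k _ => mul_mem (hg _ _) (hh _ _)

lemma adj_mem {g : Matrix (Fin 3) (Fin 3) K} (hg : ∀ i j, g i j ∈ V) (i j : Fin 3) :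
    g.adjugate i j ∈ V := by
  rw [Matrix.adjugate_fin_three]
  fin_cases i <;> fin_cases j <;> simp <;>
    first
    | exact sub_mem (mul_mem (hg _ _) (hg _ _)) (mul_mem (hg _ _) (hg _ _))
    | exact add_mem (neg_mem (mul_mem (hg _ _) (hg _ _))) (mul_mem (hg _ _) (hg _ _))

lemma ui_mul {x y : K} (hx : AVS.UI (V : Set K) x) (hy : AVS.UI (V : Set K) y) :
    AVS.UI (V : Set K) (x * y) := by
  obtain ⟨a, b, c⟩ := hx
  obtain ⟨a', b', c'⟩ := hy
  refine ⟨mul_ne_zero a a', ?_, ?_⟩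
  · exact mul_mem (S := ValuationSubring K) b b'
  · rw [mul_inv]
    exact mul_mem (S := ValuationSubring K) c c'

lemma ui_inv {x : K} (hx : AVS.UI (V : Set K) x) : AVS.UI (V : Set K) x⁻¹ := by
  obtain ⟨a, b, c⟩ := hx
  refine ⟨inv_ne_zero a, c, ?_⟩
  rw [inv_inv]
  exact b

lemma pi_mem {π : K} (h : Dv (V : Set K) π) : π ∈ V := by
  rcases V.mem_or_inv_mem π with h1 | h1
  · exact h1
  · exfalso
    have h2 := (h.unif 1 (one_mem V) one_ne_zero).mpr (by
      rw [one_div]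
      exact h1)
    rw [inv_one] at h2
    exact h2 (one_mem V)

lemma quot_iff {π : K} (hπ0 : π ≠ 0) (hπ : π ∈ V) (x : V) :
    Ideal.Quotient.mk (Ideal.span {(⟨π, hπ⟩ : V)}) x = 0 ↔ (x : K) / π ∈ V := by
  rw [Ideal.Quotient.eq_zero_iff_mem, Ideal.mem_span_singleton]
  constructor
  · rintro ⟨y, rfl⟩
    have : ((⟨π, hπ⟩ * y : V) : K) / π = y := by
      rw [MulMemClass.coe_mul]
      field_simp
    rw [this]
    exact y.2
  · intro h
    refine ⟨⟨(x : K) / π, h⟩, Subtype.ext ?_⟩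
    rw [MulMemClass.coe_mul]
    field_simp

/-- Good points modulo `π`, in terms of the quotient ring. -/
lemma gdi_half {π : K} (hD : Dv (V : Set K) π) {c : Fin 10 → K} {v v' : Fin 3 → K} {t : K}
    (hc : ∀ i, c i ∈ V) (hv : ∀ i, v i ∈ V) (hv' : ∀ i, v' i ∈ V)
    (ht : AVS.UI (V : Set K) t) (h : ∀ i, (v' i - t * v i) / π ∈ V)
    (hG : GdI (V : Set K) π c v) : GdI (V : Set K) π c v' := by
  have hπ := pi_mem hD
  have hπ0 := hD.pi_ne
  obtain ⟨ht0, ht1, ht2⟩ := ht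
  set q := Ideal.Quotient.mk (Ideal.span {(⟨π, hπ⟩ : V)}) with hq
  set cV : Fin 10 → V := fun i => ⟨c i, hc i⟩ with hcV
  set vV : Fin 3 → V := fun i => ⟨v i, hv i⟩ with hvV
  set vV' : Fin 3 → V := fun i => ⟨v' i, hv' i⟩ with hvV'
  set tV : V := ⟨t, ht1⟩ with htV
  set tV' : V := ⟨t⁻¹, ht2⟩ with htV'
  have htt : tV * tV' = 1 := Subtype.ext (mul_inv_cancel₀ ht0)
  have hqt : q tV * q tV' = 1 := by rw [← map_mul, htt, map_one]
  have hvv : (fun i => q (vV' i)) = q tV • (fun i => q (vV i)) := by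
    funext i
    rw [Pi.smul_apply, smul_eq_mul, ← map_mul, ← sub_eq_zero, ← map_sub, hq, quot_iff hπ0 hπ]
    exact h i
  have e1 : ∀ w : Fin 3 → V, q (tev cV w) = tev (fun i => q (cV i)) (fun i => q (w i)) :=
    fun w => map_tev q cV w
  have e2 : ∀ w z : Fin 3 → V, q (tder cV w z) =
      tder (fun i => q (cV i)) (fun i => q (w i)) (fun i => q (z i)) :=
    fun w z => map_tder q cV w z
  obtain ⟨g1, ⟨i0, g2⟩, g3, ⟨w, w1, w2⟩, z, z1, z2, z3⟩ := hG
  have key1 : q (tev cV vV) = 0 := by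
    rw [hq, quot_iff hπ0 hπ, coe_tev]
    exact g3
  refine ⟨hv', ⟨i0, fun hh => g2 ?_⟩, ?_, ⟨w, w1, fun hh => w2 ?_⟩, z, z1, ?_, z3⟩
  · have h1 : q (vV' i0) = 0 := by
      rw [hq, quot_iff hπ0 hπ]
      exact hh
    have h2 := congrFun hvv i0
    simp only [Pi.smul_apply, smul_eq_mul] at h2
    rw [h1] at h2
    have h3 : q (vV i0) = 0 := by
      have : q (vV i0) = q tV' * (q tV * q (vV i0)) := by
        rw [← mul_assoc, mul_comm (q tV'), hqt, one_mul]
      rw [this, ← h2, mul_zero]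
    rw [hq, quot_iff hπ0 hπ] at h3
    exact h3
  · have h1 : q (tev cV vV') = 0 := by
      rw [e1, hvv, tev_smul_vec, ← e1, key1, mul_zero]
    rw [hq, quot_iff hπ0 hπ, coe_tev] at h1
    exact h1
  · have h1 : q (tder cV vV' (fun i => ⟨w i, w1 i⟩)) = 0 := by
      rw [hq, quot_iff hπ0 hπ, coe_tder]
      exact hh
    rw [e2, hvv, tder_smul_left, ← e2] at h1
    have h3 : q (tder cV vV (fun i => ⟨w i, w1 i⟩)) = 0 := by
      have : q (tder cV vV (fun i => ⟨w i, w1 i⟩)) =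
          q tV' ^ 2 * (q tV ^ 2 * q (tder cV vV (fun i => ⟨w i, w1 i⟩))) := by
        rw [← mul_assoc, ← mul_pow, mul_comm (q tV'), hqt, one_pow, one_mul]
      rw [this, h1, mul_zero]
    rw [hq, quot_iff hπ0 hπ, coe_tder] at h3
    exact h3
  · have h1 : q (tder cV vV (fun i => ⟨z i, z1 i⟩)) = 0 := by
      rw [hq, quot_iff hπ0 hπ, coe_tder]
      exact z2
    have h2 : q (tder cV vV' (fun i => ⟨z i, z1 i⟩)) = 0 := by
      rw [e2, hvv, tder_smul_left, ← e2, h1, mul_zero]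
    rw [hq, quot_iff hπ0 hπ, coe_tder] at h2
    exact h2

end

end Pool.Agent.H72.AV3B.GIR

namespace Pool.Agent.H72.AV3B

open Polynomial Matrix Pool.AVR Pool.AV3 GIR

theorem gir_thm : Pool.AV3.GIRStmt := by
  intro K _ I π hD
  obtain ⟨V, rfl⟩ := hD.val
  refine ⟨?_, ?_, ?_, ?_, ?_, ?_⟩
  · refine ⟨?_, ?_⟩
    · intro i j
      rw [Matrix.one_apply]
      split_ifs
      · exact one_mem V
      · exact zero_mem V
    · rw [det_one]
      exact ⟨one_ne_zero, one_mem V, by rw [inv_one]; exact one_mem V⟩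
  · rintro g h ⟨g1, g2⟩ ⟨h1, h2⟩
    exact ⟨mul_mat_mem g1 h1, by rw [det_mul]; exact ui_mul g2 h2⟩
  · rintro g ⟨g1, g2⟩
    refine ⟨⟨?_, ?_⟩, g2.1⟩
    · intro i j
      rw [Matrix.inv_def, Matrix.smul_apply, smul_eq_mul, Ring.inverse_eq_inv']
      exact mul_mem (S := ValuationSubring K) g2.2.2 (adj_mem g1 i j)
    · rw [Matrix.det_nonsing_inv, Ring.inverse_eq_inv']
      exact ui_inv g2
  · intro g v hg hv
    refine ⟨?_, ?_⟩
    · intro i
      rw [mulVec3]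
      exact add_mem (S := ValuationSubring K) (add_mem (S := ValuationSubring K)
        (mul_mem (hg _ _) (hv _)) (mul_mem (hg _ _) (hv _))) (mul_mem (hg _ _) (hv _))
    · intro hv2 i
      rw [mulVec3]
      have e : (g i 0 * v 0 + g i 1 * v 1 + g i 2 * v 2) / π =
          g i 0 * (v 0 / π) + g i 1 * (v 1 / π) + g i 2 * (v 2 / π) := by ring
      rw [e]
      exact add_mem (S := ValuationSubring K) (add_mem (S := ValuationSubring K)
        (mul_mem (hg _ _) (hv2 _)) (mul_mem (hg _ _) (hv2 _))) (mul_mem (hg _ _) (hv2 _))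
  · intro c g v w hc hg hv hw
    exact ⟨tev_mem hc hv, tder_mem hc hv hw, tsub_mem hc hg⟩
  · intro c v v' t hc hv hv' ht h
    refine ⟨gdi_half hD hc hv hv' ht h, gdi_half hD hc hv' hv (ui_inv ht) ?_⟩
    intro i
    have e : (v i - t⁻¹ * v' i) / π = -(t⁻¹ * ((v' i - t * v i) / π)) := by
      have := ht.1
      field_simp
      ring
    rw [e]
    exact neg_mem (S := ValuationSubring K) (mul_mem ht.2.2 (h i))

end Pool.Agent.H72.AV3B
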