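import Pool.Agent.H72.AV3B.GIR

/-!
# Modules EQR, MKE, MKU, MKQ, MKR, MKG: marks and equivalence of pairs
-/

set_option autoImplicit false

namespace Pool.Agent.H72.AV3B.MK

open Polynomial Matrix Pool.AVR Pool.AV3 GIR

variable {K : Type} [Field K] {V : ValuationSubring K}

lemma vec_mem {g : Matrix (Fin 3) (Fin 3) K} {v : Fin 3 → K} (hg : ∀ i j, g i j ∈ V)
    (hv : ∀ i, v i ∈ V) (i : Fin 3) : (g *ᵥ v) i ∈ V := by
  rw [mulVec3]
  exact add_mem (add_mem (mul_mem (hg _ _) (hv _)) (mul_mem (hg _ _) (hv _)))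
    (mul_mem (hg _ _) (hv _))

lemma inv_gi {g : Matrix (Fin 3) (Fin 3) K} (hg : AVS.GI (V : Set K) g) :
    AVS.GI (V : Set K) g⁻¹ := by
  obtain ⟨g1, g2⟩ := hg
  refine ⟨?_, ?_⟩
  · intro i j
    rw [Matrix.inv_def, Matrix.smul_apply, smul_eq_mul, Ring.inverse_eq_inv']
    exact mul_mem (S := ValuationSubring K) g2.2.2 (adj_mem g1 i j)
  · rw [Matrix.det_nonsing_inv, Ring.inverse_eq_inv']
    exact ui_inv g2

lemma mul_gi {g h : Matrix (Fin 3) (Fin 3) K} (hg : AVS.GI (V : Set K) g)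
    (hh : AVS.GI (V : Set K) h) : AVS.GI (V : Set K) (g * h) :=
  ⟨mul_mat_mem hg.1 hh.1, by rw [det_mul]; exact ui_mul hg.2 hh.2⟩

lemma inv_mul_gi {g : Matrix (Fin 3) (Fin 3) K} (hg : AVS.GI (V : Set K) g) : g⁻¹ * g = 1 :=
  Matrix.nonsing_inv_mul g (isUnit_iff_ne_zero.2 hg.2.1)

lemma gi_mul_inv {g : Matrix (Fin 3) (Fin 3) K} (hg : AVS.GI (V : Set K) g) : g * g⁻¹ = 1 :=
  Matrix.mul_nonsing_inv g (isUnit_iff_ne_zero.2 hg.2.1)

/-- Congruence of vectors modulo `π`. -/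
def Cg (V : ValuationSubring K) (π : K) (v w : Fin 3 → K) : Prop := ∀ i, (v i - w i) / π ∈ V

lemma Cg.symm {π : K} {v w : Fin 3 → K} (h : Cg V π v w) : Cg V π w v := by
  intro i
  have e : (w i - v i) / π = -((v i - w i) / π) := by ring
  rw [e]
  exact neg_mem (h i)

lemma Cg.trans {π : K} {v w z : Fin 3 → K} (h : Cg V π v w) (h' : Cg V π w z) :
    Cg V π v z := by
  intro i
  have e : (v i - z i) / π = (v i - w i) / π + (w i - z i) / π := by ring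
  rw [e]
  exact add_mem (h i) (h' i)

lemma Cg.mulVec {π : K} {v w : Fin 3 → K} {g : Matrix (Fin 3) (Fin 3) K}
    (hg : ∀ i j, g i j ∈ V) (h : Cg V π v w) : Cg V π (g *ᵥ v) (g *ᵥ w) := by
  intro i
  have e : ((g *ᵥ v) i - (g *ᵥ w) i) / π = g i 0 * ((v 0 - w 0) / π) +
      g i 1 * ((v 1 - w 1) / π) + g i 2 * ((v 2 - w 2) / π) := by
    rw [mulVec3, mulVec3]
    ring
  rw [e]
  exact add_mem (add_mem (mul_mem (hg _ _) (h _)) (mul_mem (hg _ _) (h _)))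
    (mul_mem (hg _ _) (h _))

lemma Cg.smul {π t : K} {v w : Fin 3 → K} (ht : t ∈ V) (h : Cg V π v w) :
    Cg V π (t • v) (t • w) := by
  intro i
  have e : ((t • v) i - (t • w) i) / π = t * ((v i - w i) / π) := by
    simp only [Pi.smul_apply, smul_eq_mul]
    ring
  rw [e]
  exact mul_mem ht (h i)

lemma Cg.refl (π : K) (v : Fin 3 → K) : Cg V π v v := by
  intro i
  rw [sub_self, zero_div]
  exact zero_mem V

/-- Cancellation of an invertible matrix. -/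
lemma Cg.cancel {π : K} {v w : Fin 3 → K} {g : Matrix (Fin 3) (Fin 3) K}
    (hg : AVS.GI (V : Set K) g) (h : Cg V π (g *ᵥ v) (g *ᵥ w)) : Cg V π v w := by
  have h1 := h.mulVec (inv_gi hg).1
  rwa [Matrix.mulVec_mulVec, Matrix.mulVec_mulVec, inv_mul_gi hg, Matrix.one_mulVec,
    Matrix.one_mulVec] at h1

lemma pi_inv_not_mem {π : K} (h : Dv (V : Set K) π) : π⁻¹ ∉ V := by
  intro h1
  have h2 := (h.unif 1 (one_mem V) one_ne_zero).mpr (by
    rw [one_div]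
    exact h1)
  rw [inv_one] at h2
  exact h2 (one_mem V)

lemma zpow_unit {π : K} (h : Dv (V : Set K) π) {n : ℤ} (h1 : π ^ n ∈ V) (h2 : π ^ (-n) ∈ V) :
    n = 0 := by
  have hπ0 := h.pi_ne
  have hπ := pi_mem h
  have key : ∀ m : ℕ, π ^ (-((m : ℤ) + 1)) ∉ V := by
    intro m hm
    apply pi_inv_not_mem h
    have e : π⁻¹ = π ^ m * π ^ (-((m : ℤ) + 1)) := by
      rw [← zpow_natCast, ← zpow_add₀ hπ0, ← _root_.zpow_neg_one]
      congr 1
      ring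
    rw [e]
    exact mul_mem (pow_mem hπ _) hm
  rcases lt_trichotomy n 0 with hn | hn | hn
  · exfalso
    obtain ⟨m, hm⟩ := Int.eq_ofNat_of_zero_le (show 0 ≤ -n - 1 by omega)
    apply key m
    have : -((m : ℤ) + 1) = n := by omega
    rw [this]
    exact h1
  · exact hn
  · exfalso
    obtain ⟨m, hm⟩ := Int.eq_ofNat_of_zero_le (show 0 ≤ n - 1 by omega)
    apply key m
    have : -((m : ℤ) + 1) = -n := by omega
    rw [this]
    exact h2

/-- Two descriptions of the same lattice. -/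
lemma same_lattice {π : K} (h : Dv (V : Set K) π) {g₀ κ κ' : Matrix (Fin 3) (Fin 3) K}
    {k k' : ℤ} {r : K} (hg : g₀.det ≠ 0) (hκ : AVS.GI (V : Set K) κ)
    (hκ' : AVS.GI (V : Set K) κ') (hr : AVS.UI (V : Set K) r)
    (e : r • (π ^ k • (g₀ * κ)) = π ^ k' • (g₀ * κ')) : κ' = r • κ := by
  have hπ0 := h.pi_ne
  have hd := congrArg Matrix.det e
  rw [det_smul, det_smul, det_smul, det_mul, det_mul] at hd
  simp only [Fintype.card_fin] at hd
  have h1 : π ^ (3 * (k - k')) * (r ^ 3 * κ.det) = κ'.det := by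
    have h2 : π ^ (3 * (k - k')) = (π ^ k) ^ 3 / (π ^ k') ^ 3 := by
      rw [mul_sub, zpow_sub₀ hπ0, mul_comm 3 k, mul_comm 3 k', _root_.zpow_mul, _root_.zpow_mul]
      norm_cast
    rw [h2]
    have h3 : (π ^ k') ^ 3 ≠ 0 := pow_ne_zero _ (zpow_ne_zero _ hπ0)
    field_simp
    have h4 : g₀.det * ((π ^ k) ^ 3 * r ^ 3 * κ.det) = g₀.det * ((π ^ k') ^ 3 * κ'.det) := by
      linear_combination hd
    have h5 := mul_left_cancel₀ hg h4
    linear_combination h5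
  have hu : AVS.UI (V : Set K) (r ^ 3 * κ.det) := by
    have : r ^ 3 * κ.det = r * (r * r) * κ.det := by ring
    rw [this]
    exact ui_mul (ui_mul hr (ui_mul hr hr)) hκ.2
  have h6 : π ^ (3 * (k - k')) = κ'.det * (r ^ 3 * κ.det)⁻¹ := by
    rw [← h1, mul_assoc, mul_inv_cancel₀ hu.1, mul_one]
  have h7 : π ^ (-(3 * (k - k'))) = (r ^ 3 * κ.det) * (κ'.det)⁻¹ := by
    rw [_root_.zpow_neg, h6, mul_inv, inv_inv, mul_comm]
  have h8 : 3 * (k - k') = 0 := by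
    refine zpow_unit h ?_ ?_
    · rw [h6]
      exact mul_mem (S := ValuationSubring K) hκ'.2.2.1 hu.2.2
    · rw [h7]
      exact mul_mem (S := ValuationSubring K) hu.2.1 hκ'.2.2.2
  have h9 : k = k' := by omega
  subst h9
  have h10 : g₀ * (r • κ) = g₀ * κ' := by
    have h11 := congrArg (fun M => (π ^ k)⁻¹ • M) e
    simp only [smul_smul] at h11
    rw [inv_mul_cancel₀ (zpow_ne_zero _ hπ0), one_smul] at h11
    rw [← h11, Matrix.mul_smul]
    congr 1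
    field_simp
  have h12 := congrArg (fun M => g₀⁻¹ * M) h10
  simp only [← mul_assoc, Matrix.nonsing_inv_mul g₀ (isUnit_iff_ne_zero.2 hg), one_mul] at h12
  exact h12.symm

lemma eq3_iff {π : K} {g g' : Matrix (Fin 3) (Fin 3) K} {v v' : Fin 3 → K} :
    Eq3 (V : Set K) π g v g' v' ↔ ∃ (κ : Matrix (Fin 3) (Fin 3) K) (r : K),
      AVS.GI (V : Set K) κ ∧ r ≠ 0 ∧ g' = r • (g * κ) ∧
      ∃ t : K, AVS.UI (V : Set K) t ∧ Cg V π (κ *ᵥ v') (t • v) := Iff.rfl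

lemma mk_iff {π : K} {g₀ g : Matrix (Fin 3) (Fin 3) K} {v z : Fin 3 → K} :
    Mk (V : Set K) π g₀ v g z ↔ (∀ i, z i ∈ V) ∧ ∃ (κ : Matrix (Fin 3) (Fin 3) K) (k : ℤ),
      AVS.GI (V : Set K) κ ∧ g = π ^ k • (g₀ * κ) ∧ Cg V π (κ *ᵥ z) v := Iff.rfl

end Pool.Agent.H72.AV3B.MK

namespace Pool.Agent.H72.AV3B

open Polynomial Matrix Pool.AVR Pool.AV3 GIR MK

theorem eqr_thm : Pool.AV3.EQRStmt := by
  intro K _ I π hD
  obtain ⟨V, rfl⟩ := hD.val
  refine ⟨?_, ?_⟩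
  · intro g g' v v' hg hv hv' h
    rw [eq3_iff] at h ⊢
    obtain ⟨κ, r, hκ, hr, e, t, ht, hc⟩ := h
    refine ⟨κ⁻¹, r⁻¹, inv_gi hκ, inv_ne_zero hr, ?_, t⁻¹, ui_inv ht, ?_⟩
    · rw [e, Matrix.smul_mul, mul_assoc, gi_mul_inv hκ, mul_one, smul_smul, inv_mul_cancel₀ hr,
        one_smul]
    · have h0 := hc.symm.smul (ui_inv ht).2.1
      rw [smul_smul, inv_mul_cancel₀ ht.1, one_smul] at h0
      have h1 := h0.mulVec (inv_gi hκ).1
      rwa [Matrix.mulVec_smul, Matrix.mulVec_mulVec, inv_mul_gi hκ, Matrix.one_mulVec] at h1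
  · intro g g' g'' v v' v'' hv hv' hv'' h h'
    rw [eq3_iff] at h h' ⊢
    obtain ⟨κ, r, hκ, hr, e, t, ht, hc⟩ := h
    obtain ⟨κ', r', hκ', hr', e', t', ht', hc'⟩ := h'
    refine ⟨κ * κ', r' * r, mul_gi hκ hκ', mul_ne_zero hr' hr, ?_, t' * t, ui_mul ht' ht, ?_⟩
    · rw [e', e, Matrix.smul_mul, mul_assoc, smul_smul]
    · rw [← Matrix.mulVec_mulVec, ← smul_smul]
      refine (hc'.mulVec hκ.1).trans ?_
      rw [Matrix.mulVec_smul]
      exact hc.smul ht'.2.1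

theorem mke_thm : Pool.AV3.MKEStmt := by
  intro K _ I π hD g₀ κ v k hv hκ
  obtain ⟨V, rfl⟩ := hD.val
  refine ⟨κ⁻¹ *ᵥ v, ?_⟩
  rw [mk_iff]
  refine ⟨vec_mem (inv_gi hκ).1 hv, κ, k, hκ, rfl, ?_⟩
  rw [Matrix.mulVec_mulVec, gi_mul_inv hκ, Matrix.one_mulVec]
  exact Cg.refl π v

theorem mku_thm : Pool.AV3.MKUStmt := by
  intro K _ I π hD g₀ g v z z' hg h h'
  obtain ⟨V, rfl⟩ := hD.val
  rw [mk_iff] at h h'
  obtain ⟨hz, κ, k, hκ, e, hc⟩ := h
  obtain ⟨hz', κ', k', hκ', e', hc'⟩ := h'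
  have h1 : AVS.UI (V : Set K) (1 : K) :=
    ⟨one_ne_zero, one_mem V, by rw [inv_one]; exact one_mem V⟩
  have h2 := same_lattice hD hg hκ hκ' h1 (by rw [one_smul, ← e, ← e'])
  rw [one_smul] at h2
  subst h2
  exact (hc.trans hc'.symm).cancel hκ

theorem mkq_thm : Pool.AV3.MKQStmt := by
  intro K _ I π hD g₀ g₁ g v v' z z' r hg hg1 hr h h' hzz
  obtain ⟨V, rfl⟩ := hD.val
  rw [mk_iff] at h h'
  obtain ⟨hz, κ, k, hκ, e, hc⟩ := h
  obtain ⟨hz', κ', k', hκ', e', hc'⟩ := h'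
  have hπ0 := hD.pi_ne
  rw [eq3_iff]
  refine ⟨κ * κ'⁻¹, (π ^ k')⁻¹ * (r * π ^ k), mul_gi hκ (inv_gi hκ'), ?_, ?_, 1, ?_, ?_⟩
  · exact mul_ne_zero (inv_ne_zero (zpow_ne_zero _ hπ0)) (mul_ne_zero hr (zpow_ne_zero _ hπ0))
  · have h1 : g₁ = (π ^ k')⁻¹ • (r • g) * κ'⁻¹ := by
      rw [e', smul_smul, inv_mul_cancel₀ (zpow_ne_zero _ hπ0), one_smul, mul_assoc,
        gi_mul_inv hκ', mul_one]
    rw [h1, e, smul_smul, smul_smul, Matrix.smul_mul, mul_assoc, mul_assoc]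
  · exact ⟨one_ne_zero, one_mem V, by rw [inv_one]; exact one_mem V⟩
  · rw [one_smul, ← Matrix.mulVec_mulVec]
    have h1 : Cg V π (κ'⁻¹ *ᵥ v') z' := by
      refine Cg.cancel hκ' ?_
      rw [Matrix.mulVec_mulVec, gi_mul_inv hκ', Matrix.one_mulVec]
      exact hc'.symm
    have h2 : Cg V π z z' := hzz
    exact (h1.mulVec hκ.1).trans ((h2.symm.mulVec hκ.1).trans hc)

theorem mkr_thm : Pool.AV3.MKRStmt := by
  intro K _ I π hD g₀ g v z z' r l l' hg hr hl hl' hv hv1 h h' hzz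
  obtain ⟨V, rfl⟩ := hD.val
  rw [mk_iff] at h h'
  obtain ⟨hz, κ, k, hκ, e, hc⟩ := h
  obtain ⟨hz', κ', k', hκ', e', hc'⟩ := h'
  have h2 := same_lattice hD hg hκ hκ' hr (by rw [← e, ← e'])
  subst h2
  have h3 : Cg V π z z' := hzz
  rw [Matrix.smul_mulVec] at hc'
  have h4 := (hc.symm.trans (h3.mulVec hκ.1)).smul hr.2.1
  have h5 := (h4.trans hc').symm
  obtain ⟨i, hi⟩ := hv1
  have h6 : v i ≠ 0 := by
    intro h0
    apply hi
    rw [h0, zero_div]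
    exact zero_mem V
  have h7 : (v i)⁻¹ ∈ V := by
    by_contra h8
    exact hi ((hD.unif (v i) (hv i) h6).mp h8)
  have h8 := h5 i
  simp only [Pi.smul_apply, smul_eq_mul] at h8
  have h9 : (l' - r * l) / π = (v i)⁻¹ * ((l' * v i - r * (l * v i)) / π) := by
    field_simp
  rw [h9]
  exact mul_mem (S := ValuationSubring K) h7 h8

theorem mkg_thm : Pool.AV3.MKGStmt := by
  intro K _ I π hD c g₀ g v z l hl hK h
  obtain ⟨V, rfl⟩ := hD.val
  rw [mk_iff] at h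
  obtain ⟨hz, κ, k, hκ, e, hc⟩ := h
  obtain ⟨k1, k2, k3⟩ := hK
  have hπ0 := hD.pi_ne
  have hp0 : π ^ k ≠ 0 := zpow_ne_zero _ hπ0
  have hd : g.det = (π ^ k) ^ 3 * (g₀.det * κ.det) := by
    rw [e, det_smul, det_mul]
    simp
  have hκd : κ.det ≠ 0 := hκ.2.1
  set c₀ : Fin 10 → K := fun i => tsub c g₀ i / g₀.det with hc₀
  have hcc : (fun i => tsub c g i / g.det) = (κ.det)⁻¹ • tsub c₀ κ := by
    have h1 : tsub c g = ((π ^ k) ^ 3 * g₀.det) • tsub c₀ κ := by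
      have h2 : tsub c g₀ = g₀.det • c₀ := by
        funext i
        simp only [hc₀, Pi.smul_apply, smul_eq_mul]
        field_simp
      rw [e, tsub_smul_mat, ← Pool.AV3.tsub_mul, h2, tsub_smul_form, smul_smul]
    funext i
    rw [h1, hd]
    simp only [Pi.smul_apply, smul_eq_mul]
    field_simp
  have hcm : ∀ i, tsub c₀ κ i ∈ V := tsub_mem k2 hκ.1
  have hcm' : ∀ i, ((κ.det)⁻¹ • tsub c₀ κ) i ∈ V := fun i =>
    mul_mem (S := ValuationSubring K) hκ.2.2.2 (hcm i)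
  have hvm : ∀ i, v i ∈ V := k3.1
  have hG : GdI (V : Set K) π c₀ (κ *ᵥ z) := by
    refine gdi_half hD k2 hvm (vec_mem hκ.1 hz) hl ?_ k3
    intro i
    exact hc i
  refine ⟨?_, ?_, ?_⟩
  · rw [hd]
    exact mul_ne_zero (pow_ne_zero _ hp0) (mul_ne_zero k1 hκd)
  · intro i
    have h9 : tsub c g i / g.det = ((κ.det)⁻¹ • tsub c₀ κ) i := congrFun hcc i
    rw [h9]
    exact hcm' i
  · rw [hcc]
    obtain ⟨g1, ⟨i0, g2⟩, g3, ⟨w, w1, w2⟩, y, y1, y2, y3⟩ := hG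
    have hw : ∀ w : Fin 3 → K, κ *ᵥ (κ⁻¹ *ᵥ w) = w := by
      intro w
      rw [Matrix.mulVec_mulVec, gi_mul_inv hκ, Matrix.one_mulVec]
    have hun : ∀ x : K, κ.det⁻¹ * x / π ∈ V ↔ x / π ∈ V := by
      intro x
      constructor
      · intro hx
        have e1 : x / π = κ.det * (κ.det⁻¹ * x / π) := by field_simp
        rw [e1]
        exact mul_mem (S := ValuationSubring K) hκ.2.2.1 hx
      · intro hx
        have e1 : κ.det⁻¹ * x / π = κ.det⁻¹ * (x / π) := by ring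
        rw [e1]
        exact mul_mem (S := ValuationSubring K) hκ.2.2.2 hx
    refine ⟨hz, ?_, ?_, ⟨κ⁻¹ *ᵥ w, vec_mem (inv_gi hκ).1 w1, ?_⟩, κ⁻¹ *ᵥ y,
      vec_mem (inv_gi hκ).1 y1, ?_, ?_⟩
    · by_contra hh
      push Not at hh
      apply g2
      have e1 : (κ *ᵥ z) i0 / π = κ i0 0 * (z 0 / π) + κ i0 1 * (z 1 / π) +
          κ i0 2 * (z 2 / π) := by
        rw [mulVec3]
        ring
      rw [e1]
      exact add_mem (S := ValuationSubring K) (add_mem (S := ValuationSubring K)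
        (mul_mem (hκ.1 _ _) (hh _)) (mul_mem (hκ.1 _ _) (hh _))) (mul_mem (hκ.1 _ _) (hh _))
    · rw [tev_smul_form, tev_tsub]
      exact (hun _).mpr g3
    · rw [tder_smul_form, tder_tsub, hw]
      exact fun hx => w2 ((hun _).mp hx)
    · rw [tder_smul_form, tder_tsub, hw]
      exact (hun _).mpr y2
    · rw [tev_smul_form, tev_tsub, hw]
      exact fun hx => y3 ((hun _).mp hx)

end Pool.Agent.H72.AV3B
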