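import Pool.Agent.H72.AV3B.MK
import Pool.Agent.H8.AV3.Stmts3

/-!
# Modules TRA3, LUG3: comparison with the completion
-/

set_option autoImplicit false

namespace Pool.Agent.H72.AV3B.TRA3

open Polynomial Matrix Pool.AVR Pool.AV3 GIR MK

section

variable {K : Type} [Field K] {V : ValuationSubring K}

lemma tder_congr {π : K} (hD : Dv (V : Set K) π) {c : Fin 10 → K} {v w w' : Fin 3 → K}
    (hc : ∀ i, c i ∈ V) (hv : ∀ i, v i ∈ V) (h : Cg V π w w') :
    (tder c v w - tder c v w') / π ∈ V := by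
  have hπ0 := hD.pi_ne
  have e : (tder c v w - tder c v w') / π = tder c v (fun i => (w i - w' i) / π) := by
    unfold tder
    field_simp
    ring
  rw [e]
  exact tder_mem hc hv h

lemma tev_congr {π : K} (hD : Dv (V : Set K) π) {c : Fin 10 → K} {w w' : Fin 3 → K}
    (hc : ∀ i, c i ∈ V) (hw : ∀ i, w i ∈ V) (hw' : ∀ i, w' i ∈ V) (h : Cg V π w w') :
    (tev c w - tev c w') / π ∈ V := by
  have hπ0 := hD.pi_ne
  have hπ := pi_mem hD
  set q := Ideal.Quotient.mk (Ideal.span {(⟨π, hπ⟩ : V)}) with hq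
  have e1 : q (tev (fun i => (⟨c i, hc i⟩ : V)) (fun i => ⟨w i, hw i⟩)) =
      q (tev (fun i => (⟨c i, hc i⟩ : V)) (fun i => ⟨w' i, hw' i⟩)) := by
    rw [map_tev, map_tev]
    congr 1
    funext i
    rw [← sub_eq_zero, ← map_sub, hq, quot_iff hπ0 hπ]
    exact h i
  rw [← sub_eq_zero, ← map_sub, hq, quot_iff hπ0 hπ] at e1
  have e2 : (((tev (fun i => (⟨c i, hc i⟩ : V)) (fun i => ⟨w i, hw i⟩)) -
      (tev (fun i => (⟨c i, hc i⟩ : V)) (fun i => ⟨w' i, hw' i⟩)) : V) : K) =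
      tev c w - tev c w' := by
    rw [AddSubgroupClass.coe_sub, coe_tev, coe_tev]
  rwa [e2] at e1

lemma near_mem {π : K} (hD : Dv (V : Set K) π) {x y : K} (hx : x ∈ V) (h : (x - y) / π ∈ V) :
    y ∈ V := by
  have hπ0 := hD.pi_ne
  have e : y = x - π * ((x - y) / π) := by
    field_simp
    ring
  rw [e]
  exact sub_mem hx (mul_mem (pi_mem hD) h)

end

section Comp

variable {F : Type} [Field F] {I : Set (RatFunc F)} {ϖ : RatFunc F} {L : Type} [Field L]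
  {O : ValuationSubring L} {ι : RatFunc F →+* L}

/-- Approximation modulo the uniformizer. -/
lemma approx (hC : AVS.IsComp F I ϖ L O ι) (w : Fin 3 → L) :
    ∃ w' : Fin 3 → RatFunc F, Cg O (ι ϖ) w (fun i => ι (w' i)) := by
  have h : ∀ i, ∃ x : RatFunc F, (w i - ι x) / ι ϖ ∈ O := by
    intro i
    obtain ⟨x, hx⟩ := hC.dense (w i) 1
    rw [pow_one] at hx
    exact ⟨x, hx⟩
  choose w' hw' using h
  exact ⟨w', hw'⟩

lemma map_det (g : Matrix (Fin 3) (Fin 3) (RatFunc F)) : (g.map ι).det = ι g.det := by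
  rw [RingHom.map_det]
  rfl

lemma ui_map (hC : AVS.IsComp F I ϖ L O ι) {x : RatFunc F} (h : AVS.UI I x) :
    AVS.UI (O : Set L) (ι x) := by
  refine ⟨?_, (hC.mem x).mpr h.2.1, ?_⟩
  · rw [Ne, map_eq_zero]
    exact h.1
  · rw [← map_inv₀]
    exact (hC.mem _).mpr h.2.2

lemma gi_map (hC : AVS.IsComp F I ϖ L O ι) {g : Matrix (Fin 3) (Fin 3) (RatFunc F)}
    (h : AVS.GI I g) : AVS.GI (O : Set L) (g.map ι) := by
  refine ⟨fun i j => (hC.mem _).mpr (h.1 i j), ?_⟩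
  rw [map_det]
  exact ui_map hC h.2

lemma map_vec (g : Matrix (Fin 3) (Fin 3) (RatFunc F)) (v : Fin 3 → RatFunc F) (i : Fin 3) :
    ι ((g *ᵥ v) i) = (g.map ι *ᵥ fun i => ι (v i)) i := by
  rw [mulVec3, mulVec3]
  simp only [map_add, map_mul, Matrix.map_apply]

/-- Descent of good points. -/
lemma gdi_desc (hC : AVS.IsComp F I ϖ L O ι) (hD : Dv (O : Set L) (ι ϖ))
    {c : Fin 10 → RatFunc F} {v : Fin 3 → RatFunc F} (hc : ∀ i, c i ∈ I)
    (h : GdI (O : Set L) (ι ϖ) (fun i => ι (c i)) (fun i => ι (v i))) : GdI I ϖ c v := by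
  obtain ⟨g1, ⟨i0, g2⟩, g3, ⟨w, w1, w2⟩, z, z1, z2, z3⟩ := h
  have hcO : ∀ i, ι (c i) ∈ O := fun i => (hC.mem _).mpr (hc i)
  have hdiv : ∀ x : RatFunc F, x / ϖ ∈ I ↔ ι x / ι ϖ ∈ O := by
    intro x
    rw [← map_div₀, hC.mem]
  refine ⟨fun i => (hC.mem _).mp (g1 i), ⟨i0, fun hh => g2 ((hdiv _).mp hh)⟩, ?_, ?_, ?_⟩
  · rw [hdiv, map_tev]
    exact g3
  · obtain ⟨w', hw'⟩ := approx hC w
    refine ⟨w', fun i => (hC.mem _).mp (near_mem hD (w1 i) (hw' i)), fun hh => w2 ?_⟩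
    rw [hdiv, map_tder] at hh
    have e : tder (fun i => ι (c i)) (fun i => ι (v i)) w / ι ϖ =
        (tder (fun i => ι (c i)) (fun i => ι (v i)) w -
          tder (fun i => ι (c i)) (fun i => ι (v i)) (fun i => ι (w' i))) / ι ϖ +
        tder (fun i => ι (c i)) (fun i => ι (v i)) (fun i => ι (w' i)) / ι ϖ := by ring
    rw [e]
    exact add_mem (S := ValuationSubring L) (tder_congr hD hcO g1 hw') hh
  · obtain ⟨z', hz'⟩ := approx hC z
    have hzO : ∀ i, ι (z' i) ∈ O := fun i => near_mem hD (z1 i) (hz' i)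
    refine ⟨z', fun i => (hC.mem _).mp (hzO i), ?_, fun hh => z3 ?_⟩
    · rw [hdiv, map_tder]
      have e : tder (fun i => ι (c i)) (fun i => ι (v i)) (fun i => ι (z' i)) / ι ϖ =
          (tder (fun i => ι (c i)) (fun i => ι (v i)) (fun i => ι (z' i)) -
            tder (fun i => ι (c i)) (fun i => ι (v i)) z) / ι ϖ +
          tder (fun i => ι (c i)) (fun i => ι (v i)) z / ι ϖ := by ring
      rw [e]
      exact add_mem (S := ValuationSubring L) (tder_congr hD hcO g1 hz'.symm) z2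
    · rw [hdiv, map_tev] at hh
      have e : tev (fun i => ι (c i)) z / ι ϖ =
          (tev (fun i => ι (c i)) z - tev (fun i => ι (c i)) (fun i => ι (z' i))) / ι ϖ +
          tev (fun i => ι (c i)) (fun i => ι (z' i)) / ι ϖ := by ring
      rw [e]
      exact add_mem (S := ValuationSubring L) (tev_congr hD hcO z1 hzO hz') hh

end Comp

end Pool.Agent.H72.AV3B.TRA3

namespace Pool.Agent.H72.AV3B

open Polynomial Matrix Pool.AVR Pool.AV3 GIR MK TRA3

theorem tra3_thm (hAPX : AVS.APXStmt) (hDVP : Pool.AV3.DVPStmt) : Pool.AV3.TRA3Stmt := by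
  intro F _ I ϖ L _ O ι hC
  have hD : Dv (O : Set L) (ι ϖ) := hDVP.2.2 L O (ι ϖ) hC.loc
  refine ⟨?_, ?_⟩
  · intro c g v hK
    obtain ⟨g', κ, hg', hκ, e⟩ := hAPX F I ϖ L O ι hC g hK.1
    have h1 : AVS.UI (O : Set L) (1 : L) :=
      ⟨one_ne_zero, one_mem O, by rw [inv_one]; exact one_mem O⟩
    have e' : g'.map ι = g * κ⁻¹ := by
      rw [e, mul_assoc, gi_mul_inv hκ, mul_one]
    have hvO : ∀ i, v i ∈ O := hK.2.2.1
    obtain ⟨v', hv'⟩ := approx hC (κ *ᵥ v)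
    have hvO' : ∀ i, ι (v' i) ∈ O := fun i => near_mem hD (vec_mem hκ.1 hvO i) (hv' i)
    have hcg : Cg O (ι ϖ) (κ⁻¹ *ᵥ fun i => ι (v' i)) v := by
      refine Cg.cancel hκ ?_
      rw [Matrix.mulVec_mulVec, gi_mul_inv hκ, Matrix.one_mulVec]
      exact hv'.symm
    have hM : Mk (O : Set L) (ι ϖ) g ((1 : L) • v) (g'.map ι) (fun i => ι (v' i)) := by
      rw [mk_iff]
      refine ⟨hvO', κ⁻¹, 0, inv_gi hκ, ?_, ?_⟩
      · rw [zpow_zero, one_smul]
        exact e'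
      · rw [one_smul]
        exact hcg
    have hK' := mkg_thm L (O : Set L) (ι ϖ) hD (fun i => ι (c i)) g (g'.map ι) v
      (fun i => ι (v' i)) 1 h1 hK hM
    have e3 : ∀ i, tsub (fun i => ι (c i)) (g'.map ι) i / (g'.map ι).det =
        ι (tsub c g' i / g'.det) := by
      intro i
      rw [map_det, map_div₀]
      congr 1
      exact (congrFun (map_tsub ι c g') i).symm
    refine ⟨g', v', ⟨hg', ?_, ?_⟩, ?_⟩
    · intro i
      rw [← hC.mem, ← e3]
      exact hK'.2.1 i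
    · refine gdi_desc hC hD ?_ ?_
      · intro i
        rw [← hC.mem, ← e3]
        exact hK'.2.1 i
      · have e4 : (fun i => tsub (fun i => ι (c i)) (g'.map ι) i / (g'.map ι).det) =
            fun i => ι (tsub c g' i / g'.det) := funext e3
        have h5 := hK'.2.2
        rw [e4] at h5
        exact h5
    · rw [eq3_iff]
      refine ⟨κ⁻¹, 1, inv_gi hκ, one_ne_zero, ?_, 1, h1, ?_⟩
      · rw [one_smul]
        exact e'
      · rw [one_smul]
        exact hcg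
  · rintro g g' v v' ⟨κ, r, hκ, hr, e, t, ht, hc⟩
    refine ⟨κ.map ι, ι r, gi_map hC hκ, ?_, ?_, ι t, ui_map hC ht, ?_⟩
    · rw [Ne, map_eq_zero]
      exact hr
    · rw [e, Matrix.map_smul' _ _ _ (fun a b => map_mul ι a b), Matrix.map_mul]
    · intro i
      have h1 := (hC.mem _).mpr (hc i)
      rw [map_div₀, map_sub, map_mul, map_vec] at h1
      exact h1

theorem lug3_thm (hLCU3 : Pool.AV3.LCU3Stmt) (hTRA3 : Pool.AV3.TRA3Stmt)
    (hDVP : Pool.AV3.DVPStmt) : Pool.AV3.LUG3Stmt := by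
  intro F _ I ϖ L _ O ι hC a b c hd c₀ hcl
  have hD : Dv (O : Set L) (ι ϖ) := hDVP.2.2 L O (ι ϖ) hC.loc
  obtain ⟨hS, hT⟩ := eqr_thm L (O : Set L) (ι ϖ) hD
  obtain ⟨t1, t2⟩ := hTRA3 F I ϖ L O ι hC
  have key : ∀ M : ℕ, LF3 (O : Set L) (ι ϖ) (fun i => ι (c₀ i)) M → LF3 I ϖ c₀ M := by
    rintro M ⟨g, v, h1, h2⟩
    choose g' v' h3 h4 using fun i => t1 c₀ (g i) (v i) (h1 i)
    refine ⟨g', v', h3, fun i j hij hE => h2 i j hij ?_⟩
    have h5 := t2 _ _ _ _ hE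
    have m1 : ∀ i k, v i k ∈ O := fun i => (h1 i).2.2.1
    have m2 : ∀ i k, ι (v' i k) ∈ O := fun i k => (hC.mem _).mpr ((h3 i).2.2.1 k)
    have h6 := hT _ _ _ _ _ _ (m1 i) (m2 i) (m2 j) (h4 i) h5
    exact hT _ _ _ _ _ _ (m1 i) (m2 j) (m1 j) h6
      (hS _ _ _ _ (h1 j).1 (m1 j) (m2 j) (h4 j))
  obtain ⟨l1, l2⟩ := hLCU3 L O (ι ϖ) hC.loc a b c hd (fun i => ι (c₀ i)) hcl
  refine ⟨key 1 l1, fun N hN => ?_⟩
  obtain ⟨M, hM, hM2⟩ := l2 N hN
  exact ⟨M, key M hM, hM2⟩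

end Pool.Agent.H72.AV3B
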